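import Pool.Agent.H36.FT.Main

/-! # Products of two almost polycyclic groups, with finitely many double cosets (MP_e8b852_al, Q1)

Let `G` be locally graded and covered by finitely many double cosets `A f B` (for instance
`G = A B`) with `A`, `B` almost polycyclic. Then `G` is almost polycyclic. (For `G = A B` this is
Q1, whose frozen statement is proved in `Pool/Agent/S03413.lean`.)

Proof in `Pool/Agent/H84/PG`, `Pool/Agent/H12/TF`, `Pool/Agent/H12/TG`, `Pool/Agent/H12/RK`,
`Pool/Agent/H12/FR`, `Pool/Agent/H36/PD`, `Pool/Agent/H36/PP`, `Pool/Agent/H36/PQ` and (part 5) in
the folders `FT`, `EG`, `LF` of helpers 36, 51, 91, 57, 3, 23, 1, 87. Outline.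

1. Minimal counterexamples (for the sum of the chain lengths of `A` and `B`), in the class of all
   groups covered by finitely many double cosets of two almost polycyclic subgroups.
2. An almost polycyclic group which acts affinely with finitely many orbits on an abelian group of
   finite rank forces it to be finitely generated; so soluble normal subgroups of finite rank
   with almost polycyclic quotient are harmless, and a minimal counterexample has no equivariant
   depth function on the cosets of `A` and `B`.
3. Mal'cev: an almost polycyclic group has a subgroup of finite index with nilpotent commutator
   subgroup. A mean argument on `ℤ^k` for the depth functions of the translates of a character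
   shows that the kernel of every almost polycyclic quotient of a minimal counterexample is
   finitely generated.
4. So there is a residually finite counterexample with almost polycyclic proper quotients and an
   infinite finitely generated normal subgroup without virtual maps onto `ℤ`. One double coset is
   large in the profinite topology, which bounds the ranks of the subgroups of the finite
   sections. Tate's theorem gives, for every `n`, a subgroup of finite index whose finite quotients
   have only abelian chief factors of order divisible by a prime `≤ n`.
5. For every `r` there is `n` such that finite groups whose subgroups of prime power order have rank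
   at most `r` and whose order is divisible by no prime `≤ n` are soluble (a special case of the
   theorem of Feit and Thompson, for which an elementary proof is given here: local analysis, the
   character theory of one maximal subgroup, and a lift to characteristic zero). So the finite
   quotients are soluble, and the bounds of Zassenhaus for soluble linear groups give a
   contradiction. -/

namespace Pool.Agent.Results.MP_e8b852_al.DoubleCosetTheorem

/-- almost polycyclic: every subgroup is finitely generated and some subgroup of finite index is
soluble -/
def AlmostPolycyclic (G : Type) [Group G] : Prop :=
  (∀ K : Subgroup G, K.FG) ∧ ∃ S : Subgroup G, Group.IsSolvable S ∧ S.FiniteIndex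

/-- Let the locally graded group `G` be covered by finitely many double cosets `A f B`, where `A` and
`B` are almost polycyclic subgroups (for `G = A B` take `F = {1}`). Then `G` is almost
polycyclic. -/
theorem result (G : Type) [Group G]
    (hLG : ∀ H : Subgroup G, H.FG → H ≠ ⊥ → ∃ N : Subgroup H, N ≠ ⊤ ∧ N.FiniteIndex)
    (A B : Subgroup G) (hA : AlmostPolycyclic A) (hB : AlmostPolycyclic B)
    (F : Finset G) (hAB : ∀ g : G, ∃ a ∈ A, ∃ f ∈ F, ∃ b ∈ B, g = a * f * b) :
    AlmostPolycyclic G := by
  have hLG' : H36.PP.LG G := by
    intro H h1 h2
    obtain ⟨N, h3, h4⟩ := hLG H h1 h2
    refine ⟨N.normalCore, inferInstance, fun h => h3 ?_, inferInstance⟩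
    exact top_le_iff.1 (h ▸ N.normalCore_le)
  exact H36.PP.ap_iff.1 (H12.FR.main_ftr H36.FT.ftr hLG' A B (H36.PP.ap_iff.2 hA)
    (H36.PP.ap_iff.2 hB) (H36.PD.dc_of_cover F.finite_toSet hAB))

end Pool.Agent.Results.MP_e8b852_al.DoubleCosetTheorem
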